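import Pool.Agent.H76.GB.Odd

/-!
# Every large odd number is `q + p + p₁ p₂` with `q` and `p₁` at most a power of the logarithm
-/

noncomputable section

namespace Pool.Agent.Results.MP_967f73_nt.OddSmallPrimes

open Pool.Agent.H76.GB

theorem result : ∃ C N₀ : ℕ, ∀ N : ℕ, N₀ ≤ N → Odd N →
    ∃ q p p₁ p₂ : ℕ, q.Prime ∧ p.Prime ∧ p₁.Prime ∧ p₂.Prime ∧
      (q : ℝ) ≤ Real.log N ^ C ∧ (p₁ : ℝ) ≤ Real.log N ^ C ∧ N = q + p + p₁ * p₂ :=
  gold_odd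

end Pool.Agent.Results.MP_967f73_nt.OddSmallPrimes
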